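import Pool.Agent.H241.CubicNF

/-!
# MP_4f7796_ag, Q1: the answer is YES

Let `X` be a smooth cubic surface over a finite field `K`.  Through every point `x ∈ X(K)` there
passes a rational curve defined over `K`.
-/

namespace Pool.Agent.Results.MP_4f7796_ag.CurvesThroughPoints

open Pool.Agent.H241.CubicNF

universe u

section general

open MvPolynomial

variable {K : Type u} [Field K]

lemma chain {p : Fin 4} (G : Fin 4 → MvPolynomial (Fin 4) K) (P : MvPolynomial (Fin 4) K) :
    pderiv p (aeval G P) = ∑ i, aeval G (pderiv i P) * pderiv p (G i) := by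
  induction P using MvPolynomial.induction_on with
  | C a => simp
  | add q r hq hr => simp only [map_add, hq, hr, add_mul, Finset.sum_add_distrib]
  | mul_X q n hq =>
    simp only [map_mul, aeval_X, pderiv_mul, hq, map_add, add_mul, Finset.sum_add_distrib]
    congr 1
    · rw [Finset.sum_mul]
      refine Finset.sum_congr rfl fun i _ => by ring
    · rw [Finset.sum_eq_single n]
      · rw [pderiv_X_self, map_one, mul_one]
      · intro i _ hi
        rw [pderiv_X_of_ne hi.symm, map_zero, mul_zero, zero_mul]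
      · simp

/-- a cubic form is a combination of products of three variables -/
lemma cubic_repr {P : MvPolynomial (Fin 4) K} (hP : P.IsHomogeneous 3) :
    ∃ a : Fin 4 → Fin 4 → Fin 4 → K, P = ∑ i, ∑ j, ∑ k, C (a i j k) * X i * X j * X k := by
  classical
  have hmon : ∀ d : Fin 4 →₀ ℕ, d.degree = 3 → ∃ i j k : Fin 4,
      (monomial d (1 : K)) = X i * X j * X k := by
    have step : ∀ (n : ℕ) (d : Fin 4 →₀ ℕ), d.degree = n + 1 → ∃ i d', d = Finsupp.single i 1 + d' ∧
        d'.degree = n := by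
      intro n d hd
      have : d ≠ 0 := by
        rintro rfl
        simp at hd
      obtain ⟨i, hi⟩ := Finsupp.ne_iff.1 this
      have hi' : 1 ≤ d i := Nat.one_le_iff_ne_zero.2 hi
      have hle : Finsupp.single i 1 ≤ d := by
        rw [Finsupp.single_le_iff]; exact hi'
      refine ⟨i, d - Finsupp.single i 1, (add_tsub_cancel_of_le hle).symm, ?_⟩
      have h2 : (Finsupp.single i 1 + (d - Finsupp.single i 1)).degree = n + 1 := by
        rw [add_tsub_cancel_of_le hle, hd]
      rw [map_add, Finsupp.degree_single] at h2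
      omega
    intro d hd
    obtain ⟨i, d', h1, h2⟩ := step 2 d hd
    obtain ⟨j, d'', h3, h4⟩ := step 1 d' h2
    obtain ⟨k, d''', h5, h6⟩ := step 0 d'' h4
    have h7 : d''' = 0 := (Finsupp.degree_eq_zero_iff _).1 h6
    refine ⟨i, j, k, ?_⟩
    rw [h1, h3, h5, h7, add_zero]
    simp only [X, monomial_mul, mul_one, add_assoc]
  -- the set of representable polynomials is closed under addition
  have hadd : ∀ p q : MvPolynomial (Fin 4) K,
      (∃ a : Fin 4 → Fin 4 → Fin 4 → K, p = ∑ i, ∑ j, ∑ k, C (a i j k) * X i * X j * X k) →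
      (∃ a : Fin 4 → Fin 4 → Fin 4 → K, q = ∑ i, ∑ j, ∑ k, C (a i j k) * X i * X j * X k) →
      ∃ a : Fin 4 → Fin 4 → Fin 4 → K, p + q = ∑ i, ∑ j, ∑ k, C (a i j k) * X i * X j * X k := by
    rintro p q ⟨a, rfl⟩ ⟨b, rfl⟩
    refine ⟨fun i j k => a i j k + b i j k, ?_⟩
    simp only [C_add, add_mul, Finset.sum_add_distrib]
  have hsum : ∀ s : Finset (Fin 4 →₀ ℕ), (∀ d ∈ s, d.degree = 3) →
      ∃ a : Fin 4 → Fin 4 → Fin 4 → K, (∑ d ∈ s, monomial d (coeff d P)) =
        ∑ i, ∑ j, ∑ k, C (a i j k) * X i * X j * X k := by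
    intro s
    induction s using Finset.induction_on with
    | empty =>
      intro _
      exact ⟨fun _ _ _ => 0, by simp⟩
    | insert d s hd ih =>
      intro h
      rw [Finset.sum_insert hd]
      apply hadd _ _ _ (ih fun e he => h e (Finset.mem_insert_of_mem he))
      obtain ⟨i, j, k, hijk⟩ := hmon d (h d (Finset.mem_insert_self _ _))
      refine ⟨fun i' j' k' => if i' = i ∧ j' = j ∧ k' = k then coeff d P else 0, ?_⟩
      have h8 : monomial d (coeff d P) = C (coeff d P) * X i * X j * X k := by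
        have : monomial d (coeff d P) = C (coeff d P) * monomial d 1 := by
          rw [C_mul_monomial, mul_one]
        rw [this, hijk]; ring
      rw [h8, Finset.sum_eq_single i, Finset.sum_eq_single j, Finset.sum_eq_single k]
      · simp
      · intro b _ hb; simp [hb]
      · simp
      · intro b _ hb; simp [hb]
      · simp
      · intro b _ hb; simp [hb]
      · simp
  rw [P.as_sum]
  refine hsum P.support fun d hd => ?_
  have := hP (mem_support_iff.1 hd)
  rwa [Finsupp.degree_eq_weight_one]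

/-- the normal form as a polynomial -/
noncomputable def poly (c : Co K) : MvPolynomial (Fin 4) K :=
  F (c.map C) (X 0) (X 1) (X 2) (X 3)

lemma repr20 {P : MvPolynomial (Fin 4) K} (hP : P.IsHomogeneous 3) :
    ∃ (c : Co K) (p q r s : K), P = poly c + C p * (X 0 * X 3 ^ 2) + C q * (X 1 * X 3 ^ 2) +
      C r * (X 2 * X 3 ^ 2) + C s * X 3 ^ 3 := by
  obtain ⟨a, rfl⟩ := cubic_repr hP
  refine ⟨⟨a 3 0 0 + a 0 3 0 + a 0 0 3,
    a 3 0 1 + a 3 1 0 + a 0 3 1 + a 1 3 0 + a 0 1 3 + a 1 0 3,
    a 3 0 2 + a 3 2 0 + a 0 3 2 + a 2 3 0 + a 0 2 3 + a 2 0 3,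
    a 3 1 1 + a 1 3 1 + a 1 1 3,
    a 3 1 2 + a 3 2 1 + a 1 3 2 + a 2 3 1 + a 1 2 3 + a 2 1 3,
    a 3 2 2 + a 2 3 2 + a 2 2 3,
    a 0 0 0,
    a 1 0 0 + a 0 1 0 + a 0 0 1,
    a 2 0 0 + a 0 2 0 + a 0 0 2,
    a 0 1 1 + a 1 0 1 + a 1 1 0,
    a 0 1 2 + a 0 2 1 + a 1 0 2 + a 1 2 0 + a 2 0 1 + a 2 1 0,
    a 0 2 2 + a 2 0 2 + a 2 2 0,
    a 1 1 1,
    a 1 1 2 + a 1 2 1 + a 2 1 1,
    a 1 2 2 + a 2 1 2 + a 2 2 1,
    a 2 2 2⟩, a 0 3 3 + a 3 0 3 + a 3 3 0 - 1, a 1 3 3 + a 3 1 3 + a 3 3 1,
    a 2 3 3 + a 3 2 3 + a 3 3 2, a 3 3 3, ?_⟩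
  unfold poly F Co.map
  simp only [Fin.sum_univ_four, C_add, C_sub, C_1]
  ring

lemma eval_poly (c : Co K) : eval ![0, 0, 0, 1] (poly c) = 0 := by
  unfold poly F Co.map
  simp

lemma eval_pderiv_poly (c : Co K) : eval ![0, 0, 0, 1] (pderiv 0 (poly c)) = 1 ∧
    eval ![0, 0, 0, 1] (pderiv 1 (poly c)) = 0 ∧ eval ![0, 0, 0, 1] (pderiv 2 (poly c)) = 0 := by
  unfold poly F Co.map
  refine ⟨?_, ?_, ?_⟩ <;> simp [pderiv_X]

lemma normal {P : MvPolynomial (Fin 4) K} (hP : P.IsHomogeneous 3)
    (h : eval ![0, 0, 0, 1] P = 0) (h0 : eval ![0, 0, 0, 1] (pderiv 0 P) = 1)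
    (h1 : eval ![0, 0, 0, 1] (pderiv 1 P) = 0) (h2 : eval ![0, 0, 0, 1] (pderiv 2 P) = 0) :
    ∃ c : Co K, P = poly c := by
  obtain ⟨c, p, q, r, s, rfl⟩ := repr20 hP
  obtain ⟨g0, g1, g2⟩ := eval_pderiv_poly c
  have hs : s = 0 := by
    simpa [eval_poly c] using h
  have hp : p = 0 := by
    simpa [g0, pderiv_X, Pi.single_apply] using h0
  have hq : q = 0 := by
    simpa [g1, pderiv_X, Pi.single_apply] using h1
  have hr : r = 0 := by
    simpa [g2, pderiv_X, Pi.single_apply] using h2
  refine ⟨c, ?_⟩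
  rw [hs, hp, hq, hr]
  simp

lemma aeval_poly {A : Type*} [CommRing A] [Algebra K A] (c : Co K) (v : Fin 4 → A) :
    aeval v (poly c) = F (c.map (algebraMap K A)) (v 0) (v 1) (v 2) (v 3) := by
  unfold poly F Co.map
  simp only [map_add, map_mul, map_pow, aeval_X, aeval_C]

lemma aeval_pderiv_poly {A : Type*} [CommRing A] [Algebra K A] (c : Co K) (v : Fin 4 → A) :
    aeval v (pderiv 0 (poly c)) = Fx (c.map (algebraMap K A)) (v 0) (v 1) (v 2) (v 3) ∧
    aeval v (pderiv 1 (poly c)) = Fy (c.map (algebraMap K A)) (v 0) (v 1) (v 2) (v 3) ∧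
    aeval v (pderiv 2 (poly c)) = Fz (c.map (algebraMap K A)) (v 0) (v 1) (v 2) (v 3) ∧
    aeval v (pderiv 3 (poly c)) = Fw (c.map (algebraMap K A)) (v 0) (v 1) (v 2) (v 3) := by
  unfold poly F Fx Fy Fz Fw Co.map
  refine ⟨?_, ?_, ?_, ?_⟩
  · simp [pderiv_X]; ring
  · simp [pderiv_X]; ring
  · simp [pderiv_X]; ring
  · simp [pderiv_X]; ring

end general

section matrix

variable {K : Type u} [Field K]

lemma exists_perm : ∀ i j : Fin 4, i ≠ j → ∃ σ : Equiv.Perm (Fin 4), σ 0 = i ∧ σ 3 = j := by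
  decide

/-- a good basis -/
lemma exists_matrix (g x : Fin 4 → K) (hg : g ≠ 0) (hx : x ≠ 0) (hgx : ∑ i, x i * g i = 0) :
    ∃ M N : Matrix (Fin 4) (Fin 4) K, M * N = 1 ∧ (∀ i, M i 3 = x i) ∧
      (∑ i, g i * M i 0 = 1) ∧ (∑ i, g i * M i 1 = 0) ∧ (∑ i, g i * M i 2 = 0) := by
  obtain ⟨i, hi⟩ := Function.ne_iff.1 hg
  have hj : ∃ j, i ≠ j ∧ x j ≠ 0 := by
    by_contra hcon
    push Not at hcon
    have h1 : ∑ k, x k * g k = x i * g i := by
      rw [Finset.sum_eq_single i]
      · intro k _ hk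
        rw [hcon k hk.symm, zero_mul]
      · simp
    rw [h1] at hgx
    have h2 : x i = 0 := (mul_eq_zero.1 hgx).resolve_right hi
    apply hx
    funext k
    by_cases hk : i = k
    · rw [← hk, h2]; rfl
    · rw [hcon k hk]; rfl
  obtain ⟨j, hij, hj⟩ := hj
  obtain ⟨σ, hσ0, hσ3⟩ := exists_perm i j hij
  obtain ⟨a, ha⟩ : ∃ a : Fin 4 → K, a = fun k => g (σ k) := ⟨_, rfl⟩
  obtain ⟨y, hy⟩ : ∃ y : Fin 4 → K, y = fun k => x (σ k) := ⟨_, rfl⟩
  have ha0 : a 0 ≠ 0 := by rw [ha]; simpa [hσ0] using hi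
  have hy3 : y 3 ≠ 0 := by rw [hy]; simpa [hσ3] using hj
  have hay : y 0 * a 0 + y 1 * a 1 + y 2 * a 2 + y 3 * a 3 = 0 := by
    rw [← Equiv.sum_comp σ] at hgx
    rw [Fin.sum_univ_four] at hgx
    rw [ha, hy]
    exact hgx
  let M0 : Matrix (Fin 4) (Fin 4) K := !![1 / a 0, - a 1 / a 0, - a 2 / a 0, y 0;
    0, 1, 0, y 1; 0, 0, 1, y 2; 0, 0, 0, y 3]
  let N0 : Matrix (Fin 4) (Fin 4) K := !![a 0, a 1, a 2, a 3;
    0, 1, 0, - y 1 / y 3; 0, 0, 1, - y 2 / y 3; 0, 0, 0, 1 / y 3]
  have hMN : M0 * N0 = 1 := by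
    ext p q
    fin_cases p <;> fin_cases q <;>
      simp [M0, N0, Matrix.mul_apply, Fin.sum_univ_four, ha0, hy3]
    · field_simp; ring
    · field_simp; ring
    · field_simp; linear_combination hay
    · field_simp; ring
    · field_simp; ring
  refine ⟨M0.submatrix σ.symm id, N0.submatrix id σ.symm, ?_, ?_, ?_, ?_, ?_⟩
  · have := Matrix.submatrix_mul_equiv M0 N0 σ.symm (Equiv.refl (Fin 4)) σ.symm
    rw [hMN, Matrix.submatrix_one_equiv] at this
    exact this
  · intro k
    have h3 : ∀ k, M0 k 3 = y k := by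
      intro k; fin_cases k <;> rfl
    show M0 (σ.symm k) 3 = x k
    rw [h3, hy]
    show x (σ (σ.symm k)) = x k
    rw [Equiv.apply_symm_apply]
  · rw [← Equiv.sum_comp σ]
    simp only [Matrix.submatrix_apply, Equiv.symm_apply_apply, id, Fin.sum_univ_four]
    have h0 : M0 0 0 = 1 / a 0 := rfl
    have h1 : M0 1 0 = 0 := rfl
    have h2 : M0 2 0 = 0 := rfl
    have h3 : M0 3 0 = 0 := rfl
    rw [h0, h1, h2, h3]
    have : g (σ 0) = a 0 := by rw [ha]
    rw [this]
    field_simp
    ring
  · rw [← Equiv.sum_comp σ]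
    simp only [Matrix.submatrix_apply, Equiv.symm_apply_apply, id, Fin.sum_univ_four]
    have h0 : M0 0 1 = - a 1 / a 0 := rfl
    have h1 : M0 1 1 = 1 := rfl
    have h2 : M0 2 1 = 0 := rfl
    have h3 : M0 3 1 = 0 := rfl
    rw [h0, h1, h2, h3]
    have e0 : g (σ 0) = a 0 := by rw [ha]
    have e1 : g (σ 1) = a 1 := by rw [ha]
    rw [e0, e1]
    field_simp
    ring
  · rw [← Equiv.sum_comp σ]
    simp only [Matrix.submatrix_apply, Equiv.symm_apply_apply, id, Fin.sum_univ_four]
    have h0 : M0 0 2 = - a 2 / a 0 := rfl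
    have h1 : M0 1 2 = 0 := rfl
    have h2 : M0 2 2 = 1 := rfl
    have h3 : M0 3 2 = 0 := rfl
    rw [h0, h1, h2, h3]
    have e0 : g (σ 0) = a 0 := by rw [ha]
    have e2 : g (σ 2) = a 2 := by rw [ha]
    rw [e0, e2]
    field_simp
    ring

end matrix

section transport

open MvPolynomial

variable {K : Type u} [Field K]

/-- the linear substitution given by a matrix -/
noncomputable def lin (M : Matrix (Fin 4) (Fin 4) K) (i : Fin 4) : MvPolynomial (Fin 4) K :=
  ∑ p, C (M i p) * X p

lemma aeval_lin {A : Type*} [CommRing A] [Algebra K A] (M : Matrix (Fin 4) (Fin 4) K)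
    (v : Fin 4 → A) (P : MvPolynomial (Fin 4) K) :
    aeval v (aeval (lin M) P) = aeval (fun i => ∑ p, algebraMap K A (M i p) * v p) P := by
  have h : (aeval v : MvPolynomial (Fin 4) K →ₐ[K] A).comp (aeval (lin M)) =
      aeval (fun i => ∑ p, algebraMap K A (M i p) * v p) := by
    apply MvPolynomial.algHom_ext
    intro i
    simp [lin]
  exact DFunLike.congr_fun h P

lemma pderiv_lin (M : Matrix (Fin 4) (Fin 4) K) (i p : Fin 4) :
    pderiv p (lin M i) = C (M i p) := by
  unfold lin
  rw [map_sum, Finset.sum_eq_single p]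
  · rw [pderiv_mul, pderiv_C, pderiv_X_self]; ring
  · intro q _ hq
    rw [pderiv_mul, pderiv_C, pderiv_X_of_ne hq]; ring
  · simp

lemma lin_homogeneous (M : Matrix (Fin 4) (Fin 4) K) (i : Fin 4) :
    (lin M i).IsHomogeneous 1 :=
  IsHomogeneous.sum _ _ _ fun _ _ => isHomogeneous_C_mul_X _ _

lemma inv_apply {A : Type*} [CommRing A] [Algebra K A] {M N : Matrix (Fin 4) (Fin 4) K}
    (h : N * M = 1) (v : Fin 4 → A) (q : Fin 4) :
    ∑ i, algebraMap K A (N q i) * ∑ p, algebraMap K A (M i p) * v p = v q := by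
  have h1 : ∀ p, ∑ i, algebraMap K A (N q i) * algebraMap K A (M i p) =
      if q = p then 1 else 0 := by
    intro p
    have := congrArg (algebraMap K A) (congrFun (congrFun h q) p)
    rw [Matrix.mul_apply, map_sum] at this
    simp only [map_mul] at this
    rw [this, Matrix.one_apply]
    split_ifs <;> simp
  calc ∑ i, algebraMap K A (N q i) * ∑ p, algebraMap K A (M i p) * v p
      = ∑ p, (∑ i, algebraMap K A (N q i) * algebraMap K A (M i p)) * v p := by
        simp only [Finset.mul_sum, Finset.sum_mul]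
        rw [Finset.sum_comm]
        refine Finset.sum_congr rfl fun p _ => Finset.sum_congr rfl fun i _ => by ring
    _ = v q := by
        simp only [h1]
        simp

lemma inv_apply' {A : Type*} [CommRing A] [Algebra K A] {M N : Matrix (Fin 4) (Fin 4) K}
    (h : M * N = 1) (v : Fin 4 → A) (hv : ∀ p, ∑ i, v i * algebraMap K A (M i p) = 0)
    (q : Fin 4) : v q = 0 := by
  have h1 : ∀ i, ∑ p, algebraMap K A (M i p) * algebraMap K A (N p q) =
      if i = q then 1 else 0 := by
    intro i
    have := congrArg (algebraMap K A) (congrFun (congrFun h i) q)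
    rw [Matrix.mul_apply, map_sum] at this
    simp only [map_mul] at this
    rw [this, Matrix.one_apply]
    split_ifs <;> simp
  have h2 : ∑ p, (∑ i, v i * algebraMap K A (M i p)) * algebraMap K A (N p q) = v q := by
    calc ∑ p, (∑ i, v i * algebraMap K A (M i p)) * algebraMap K A (N p q)
        = ∑ i, v i * ∑ p, algebraMap K A (M i p) * algebraMap K A (N p q) := by
          simp only [Finset.mul_sum, Finset.sum_mul]
          rw [Finset.sum_comm]
          refine Finset.sum_congr rfl fun p _ => Finset.sum_congr rfl fun i _ => by ring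
      _ = v q := by
          simp only [h1]
          simp
  rw [← h2]
  simp only [hv, zero_mul, Finset.sum_const_zero]

/-- affine version of the main theorem -/
theorem affine_curve [Finite K] (P : MvPolynomial (Fin 4) K) (hP : P.IsHomogeneous 3)
    (hsm : ∀ Q : Fin 4 → AlgebraicClosure K, Q ≠ 0 → aeval Q P = 0 →
      ∃ i, aeval Q (pderiv i P) ≠ 0)
    (x : Fin 4 → K) (hx0 : x ≠ 0) (hx : eval x P = 0) :
    ∃ f : Fin 4 → Polynomial K, aeval f P = 0 ∧
      (∃ (θ c : AlgebraicClosure K), c ≠ 0 ∧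
        ∀ i, Polynomial.aeval θ (f i) = c * algebraMap K (AlgebraicClosure K) (x i)) ∧
      ¬ ∃ g : Polynomial K, ∀ i, f i = Polynomial.C (x i) * g := by
  -- the gradient
  obtain ⟨g, hg⟩ : ∃ g : Fin 4 → K, g = fun i => eval x (pderiv i P) := ⟨_, rfl⟩
  have haev : ∀ q : MvPolynomial (Fin 4) K,
      aeval (fun i => algebraMap K (AlgebraicClosure K) (x i)) q =
      algebraMap K (AlgebraicClosure K) (eval x q) := by
    intro q
    have := MvPolynomial.aeval_algebraMap_apply (B := AlgebraicClosure K) x q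
    rw [MvPolynomial.aeval_eq_eval] at this
    exact this
  have hg0 : g ≠ 0 := by
    obtain ⟨i, hi⟩ := hsm (fun i => algebraMap K (AlgebraicClosure K) (x i)) (by
      intro h0
      apply hx0
      funext i
      exact (map_eq_zero _).1 (congrFun h0 i)) (by rw [haev, hx, map_zero])
    intro h0
    apply hi
    rw [haev]
    have := congrFun h0 i
    rw [hg] at this
    rw [show eval x (pderiv i P) = 0 from this, map_zero]
  have heuler : ∑ i, x i * g i = 0 := by
    have := congrArg (eval x) hP.sum_X_mul_pderiv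
    rw [map_sum, map_nsmul, hx, smul_zero] at this
    rw [hg, ← this]
    refine Finset.sum_congr rfl fun i _ => ?_
    rw [map_mul, eval_X]
  obtain ⟨M, N, hMN, hM3, hM0, hM1, hM2⟩ := exists_matrix g x hg0 hx0 heuler
  have hNM : N * M = 1 := mul_eq_one_comm.1 hMN
  obtain ⟨P', hP'⟩ : ∃ P', P' = aeval (lin M) P := ⟨_, rfl⟩
  have hP'h : P'.IsHomogeneous 3 := by
    rw [hP']
    have := hP.aeval (lin M) (fun i => lin_homogeneous M i)
    simpa using this
  have he3 : ∀ i, ∑ p, M i p * (![0, 0, 0, 1] : Fin 4 → K) p = x i := by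
    intro i
    simp [Fin.sum_univ_four, hM3]
  have hev : ∀ q : MvPolynomial (Fin 4) K, eval ![0, 0, 0, 1] (aeval (lin M) q) = eval x q := by
    intro q
    have := aeval_lin (A := K) M ![0, 0, 0, 1] q
    rw [MvPolynomial.aeval_eq_eval, MvPolynomial.aeval_eq_eval] at this
    have h2 : (fun i => ∑ p, algebraMap K K (M i p) * (![0, 0, 0, 1] : Fin 4 → K) p) = x :=
      funext he3
    rw [h2] at this
    exact this
  have hgrad : ∀ p, eval ![0, 0, 0, 1] (pderiv p P') = ∑ i, g i * M i p := by
    intro p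
    rw [hP', chain, map_sum]
    refine Finset.sum_congr rfl fun i _ => ?_
    rw [map_mul, pderiv_lin, eval_C, hev, hg]
  obtain ⟨c, hc⟩ := normal hP'h (by rw [hP', hev, hx]) (by rw [hgrad, hM0]) (by rw [hgrad, hM1])
    (by rw [hgrad, hM2])
  -- smoothness in the new coordinates
  have hgood : Good c := by
    apply good_all
    rintro ρ w ⟨h0, h1, h2, h3, h4⟩
    obtain ⟨v, hv⟩ : ∃ v : Fin 4 → AlgebraicClosure K, v = ![0, 1, ρ, w] := ⟨_, rfl⟩
    obtain ⟨Q, hQ⟩ : ∃ Q : Fin 4 → AlgebraicClosure K,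
      Q = fun i => ∑ p, algebraMap K _ (M i p) * v p := ⟨_, rfl⟩
    have hQ0 : Q ≠ 0 := by
      intro hz
      have h5 := inv_apply hNM v 1
      rw [hv] at h5
      have h6 : ∀ i, ∑ p, algebraMap K (AlgebraicClosure K) (M i p) *
          (![0, 1, ρ, w] : Fin 4 → AlgebraicClosure K) p = 0 := by
        intro i
        have := congrFun hz i
        rw [hQ, hv] at this
        exact this
      simp only [h6, mul_zero, Finset.sum_const_zero] at h5
      exact zero_ne_one h5
    have hQP : ∀ q : MvPolynomial (Fin 4) K, aeval Q q = aeval v (aeval (lin M) q) := by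
      intro q
      rw [aeval_lin, hQ]
    obtain ⟨i, hi⟩ := hsm Q hQ0 (by
      rw [hQP, ← hP', hc, aeval_poly, hv]
      exact h0)
    apply hi
    refine inv_apply' hMN (fun i => aeval Q (pderiv i P)) ?_ i
    intro p
    have h7 : aeval v (pderiv p P') = ∑ i, aeval Q (pderiv i P) *
        algebraMap K (AlgebraicClosure K) (M i p) := by
      rw [hP', chain, map_sum]
      refine Finset.sum_congr rfl fun i _ => ?_
      rw [map_mul, pderiv_lin, aeval_C, hQP]
    rw [← h7, hc]
    obtain ⟨e0, e1, e2, e3⟩ := aeval_pderiv_poly c v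
    rw [hv] at e0 e1 e2 e3 ⊢
    fin_cases p
    · exact e0.trans h1
    · exact e1.trans h2
    · exact e2.trans h3
    · exact e3.trans h4
  obtain ⟨f0, f1, f2, f3, hF, hne, θ, t0, t1, t2, t3⟩ := hgood
  obtain ⟨v, hv⟩ : ∃ v : Fin 4 → Polynomial K, v = ![f0, f1, f2, f3] := ⟨_, rfl⟩
  refine ⟨fun i => ∑ p, algebraMap K (Polynomial K) (M i p) * v p, ?_,
    ⟨θ, Polynomial.aeval θ f3, t3, fun i => ?_⟩, ?_⟩
  · rw [← aeval_lin, ← hP', hc, aeval_poly, hv]
    exact hF
  · rw [hv]
    simp only [Fin.sum_univ_four, map_add, map_mul, Polynomial.algebraMap_eq,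
      Polynomial.aeval_C, hM3]
    show algebraMap K (AlgebraicClosure K) (M i 0) * Polynomial.aeval θ f0 +
      algebraMap K (AlgebraicClosure K) (M i 1) * Polynomial.aeval θ f1 +
      algebraMap K (AlgebraicClosure K) (M i 2) * Polynomial.aeval θ f2 +
      algebraMap K (AlgebraicClosure K) (x i) * Polynomial.aeval θ f3 =
      Polynomial.aeval θ f3 * algebraMap K (AlgebraicClosure K) (x i)
    rw [t0, t1, t2]
    ring
  · rintro ⟨h, hh⟩
    have hh' : ∀ i, ∑ p, algebraMap K (Polynomial K) (M i p) * v p = Polynomial.C (x i) * h := hh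
    have h9 : ∀ q, ∑ i, N q i * x i = if q = 3 then 1 else 0 := by
      intro q
      have := congrFun (congrFun hNM q) 3
      rw [Matrix.mul_apply, Matrix.one_apply] at this
      rw [← this]
      refine Finset.sum_congr rfl fun i _ => by rw [hM3]
    have h8 : ∀ q, v q = Polynomial.C (∑ i, N q i * x i) * h := by
      intro q
      rw [← inv_apply hNM v q, map_sum, Finset.sum_mul]
      refine Finset.sum_congr rfl fun i _ => ?_
      rw [hh' i, Polynomial.algebraMap_eq, Polynomial.C_mul]; ring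
    have z0 : f0 = 0 := by
      have := h8 0
      rw [h9, hv] at this
      simpa using this
    have z1 : f1 = 0 := by
      have := h8 1
      rw [h9, hv] at this
      simpa using this
    have z2 : f2 = 0 := by
      have := h8 2
      rw [h9, hv] at this
      simpa using this
    rcases hne with h | h | h
    · exact h z0
    · exact h z1
    · exact h z2

end transport

section final

open MvPolynomial

variable {K : Type u} [Field K]

lemma aeval_homogenize {A : Type*} [CommRing A] [Algebra K A] (p : Polynomial K) (n : ℕ)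
    (s : Fin 2 → A) : aeval s (p.homogenize n) =
      ∑ kl ∈ Finset.HasAntidiagonal.antidiagonal n, algebraMap K A (p.coeff kl.1) * (s 0 ^ kl.1 * s 1 ^ kl.2) := by
  unfold Polynomial.homogenize
  rw [map_sum]
  refine Finset.sum_congr rfl fun kl _ => ?_
  rw [aeval_monomial]
  congr 1
  rw [Finsupp.prod_fintype _ _ (fun _ => pow_zero _)]
  simp [Fin.prod_univ_two]

lemma aeval_homogenize_scale {A : Type*} [Field A] [Algebra K A] {p : Polynomial K} {n : ℕ}
    (hp : p.natDegree ≤ n) (s : Fin 2 → A) (hs : s 1 ≠ 0) :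
    aeval s (p.homogenize n) = s 1 ^ n * Polynomial.aeval (s 0 / s 1) p := by
  have h1 : Polynomial.aeval (s 0 / s 1) p = aeval ![s 0 / s 1, 1] (p.homogenize n) := by
    rw [Polynomial.aeval_homogenize_of_eq_one hp _ rfl]
    rfl
  rw [h1, aeval_homogenize, aeval_homogenize, Finset.mul_sum]
  refine Finset.sum_congr rfl fun kl hkl => ?_
  have h2 : kl.1 + kl.2 = n := Finset.HasAntidiagonal.mem_antidiagonal.1 hkl
  show _ = s 1 ^ n * (_ * ((s 0 / s 1) ^ kl.1 * 1 ^ kl.2))
  rw [← h2, pow_add, div_pow]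
  field_simp
  ring

lemma aeval_homogenize_inf {A : Type*} [CommRing A] [Algebra K A] (p : Polynomial K) {n : ℕ}
    (s : Fin 2 → A) (hs : s 1 = 0) :
    aeval s (p.homogenize n) = algebraMap K A (p.coeff n) * s 0 ^ n := by
  rw [aeval_homogenize, Finset.sum_eq_single (n, 0)]
  · simp
  · intro kl hkl hne
    have h2 : kl.1 + kl.2 = n := Finset.HasAntidiagonal.mem_antidiagonal.1 hkl
    have h3 : kl.2 ≠ 0 := by
      intro h0
      apply hne
      rw [h0, add_zero] at h2
      exact Prod.ext h2 h0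
    rw [hs, zero_pow h3, mul_zero, mul_zero]
  · intro h0
    exact absurd (Finset.HasAntidiagonal.mem_antidiagonal.2 (add_zero n)) h0

/-- **Theorem** (MP_4f7796_ag, Q1, positive answer).  Let `K` be a finite field, `P` a cubic form in
four variables over `K` defining a smooth surface, and `x` a `K`-point of the surface `P = 0`.
Then there is a morphism `f : ℙ¹ → ℙ³` over `K`, given by four binary forms of the same positive
degree `d` without a common zero (in particular `f` is not constant), whose image is contained in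
the surface and contains `x`. -/
theorem result (K : Type u) [Field K] [Finite K] (P : MvPolynomial (Fin 4) K)
    (hP : P.IsHomogeneous 3)
    (hsm : ∀ Q : Fin 4 → AlgebraicClosure K, Q ≠ 0 → aeval Q P = 0 →
      ∃ i, aeval Q (pderiv i P) ≠ 0)
    (x : Fin 4 → K) (hx0 : x ≠ 0) (hx : eval x P = 0) :
    ∃ (d : ℕ) (f : Fin 4 → MvPolynomial (Fin 2) K), 0 < d ∧ (∀ i, (f i).IsHomogeneous d) ∧
      (∀ s : Fin 2 → AlgebraicClosure K, s ≠ 0 → ∃ i, aeval s (f i) ≠ 0) ∧
      aeval f P = 0 ∧
      ∃ (s : Fin 2 → AlgebraicClosure K) (c : AlgebraicClosure K), s ≠ 0 ∧ c ≠ 0 ∧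
        ∀ i, aeval s (f i) = c * algebraMap K (AlgebraicClosure K) (x i) := by
  obtain ⟨f, hf, ⟨θ, c, hc, hfθ⟩, hnc⟩ := affine_curve P hP hsm x hx0 hx
  -- divide by the greatest common divisor
  obtain ⟨h, hh⟩ : ∃ h : Polynomial K, Ideal.span (Set.range f) = Ideal.span {h} :=
    (IsPrincipalIdealRing.principal (Ideal.span (Set.range f))).principal
  have hdvd : ∀ i, h ∣ f i := by
    intro i
    rw [← Ideal.mem_span_singleton, ← hh]
    exact Ideal.subset_span ⟨i, rfl⟩
  choose g hg using hdvd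
  obtain ⟨j, hj⟩ := Function.ne_iff.1 hx0
  have hfj : Polynomial.aeval θ (f j) ≠ 0 := by
    rw [hfθ]
    exact mul_ne_zero hc (fun h0 => hj ((map_eq_zero _).1 h0))
  have hhθ : Polynomial.aeval θ h ≠ 0 := by
    intro h0
    apply hfj
    rw [hg, map_mul, h0, zero_mul]
  have hh0 : h ≠ 0 := by
    rintro rfl
    exact hhθ (map_zero _)
  obtain ⟨a, ha⟩ : ∃ a : Fin 4 → Polynomial K, ∑ i, a i * f i = h := by
    have : h ∈ Ideal.span (Set.range f) := by
      rw [hh]; exact Ideal.mem_span_singleton_self h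
    exact (Ideal.mem_span_range_iff_exists_fun).1 this
  have hbez : ∑ i, a i * g i = 1 := by
    have : h * ∑ i, a i * g i = h * 1 := by
      rw [mul_one, Finset.mul_sum]
      conv_rhs => rw [← ha]
      refine Finset.sum_congr rfl fun i _ => ?_
      rw [hg i]; ring
    exact mul_left_cancel₀ hh0 this
  have hgP : aeval g P = 0 := by
    have h1 : aeval (fun i => h * g i) P = h ^ 3 * aeval g P := by
      obtain ⟨b, rfl⟩ := cubic_repr hP
      simp only [map_sum, map_mul, aeval_X, aeval_C, Finset.mul_sum]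
      refine Finset.sum_congr rfl fun i _ => Finset.sum_congr rfl fun j _ =>
        Finset.sum_congr rfl fun k _ => by ring
    have h2 : f = fun i => h * g i := funext hg
    rw [h2] at hf
    rw [h1] at hf
    exact (mul_eq_zero.1 hf).resolve_left (pow_ne_zero 3 hh0)
  obtain ⟨d, hd⟩ : ∃ d, d = Finset.univ.sup fun i => (g i).natDegree := ⟨_, rfl⟩
  have hdle : ∀ i, (g i).natDegree ≤ d := by
    intro i
    rw [hd]
    exact Finset.le_sup (f := fun i => (g i).natDegree) (Finset.mem_univ i)
  have hdpos : 0 < d := by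
    rw [Nat.pos_iff_ne_zero]
    intro h0
    -- all `g i` are constants
    have hconst : ∀ i, g i = Polynomial.C ((g i).coeff 0) := fun i =>
      Polynomial.eq_C_of_natDegree_eq_zero (Nat.le_zero.1 (h0 ▸ hdle i))
    apply hnc
    refine ⟨h * Polynomial.C ((g j).coeff 0 / x j), fun i => ?_⟩
    have hval : ∀ i, Polynomial.aeval θ h * algebraMap K (AlgebraicClosure K) ((g i).coeff 0) =
        c * algebraMap K (AlgebraicClosure K) (x i) := by
      intro i
      rw [← hfθ i, hg i, map_mul]
      congr 1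
      conv_rhs => rw [hconst i, Polynomial.aeval_C]
    have hK : (g i).coeff 0 * x j = (g j).coeff 0 * x i := by
      apply (algebraMap K (AlgebraicClosure K)).injective
      rw [map_mul, map_mul]
      apply mul_left_cancel₀ hhθ
      linear_combination (algebraMap K (AlgebraicClosure K) (x j)) * hval i -
        (algebraMap K (AlgebraicClosure K) (x i)) * hval j
    have hxj : x j ≠ 0 := hj
    have hK' : (g i).coeff 0 = x i * ((g j).coeff 0 / x j) := by
      field_simp
      linear_combination hK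
    rw [hg i]
    conv_lhs => rw [hconst i, hK', Polynomial.C_mul]
    ring
  refine ⟨d, fun i => (g i).homogenize d, hdpos, fun i => Polynomial.isHomogeneous_homogenize _,
    ?_, ?_, ![θ, 1], c / Polynomial.aeval θ h, ?_, div_ne_zero hc hhθ, ?_⟩
  · intro s hs
    by_cases hs1 : s 1 = 0
    · have hs0 : s 0 ≠ 0 := by
        intro h0
        apply hs
        funext k
        fin_cases k
        · exact h0
        · exact hs1
      obtain ⟨i, -, hi⟩ := Finset.exists_mem_eq_sup (Finset.univ : Finset (Fin 4))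
        Finset.univ_nonempty (fun i => (g i).natDegree)
      rw [← hd] at hi
      refine ⟨i, ?_⟩
      rw [aeval_homogenize_inf _ _ hs1]
      refine mul_ne_zero ?_ (pow_ne_zero _ hs0)
      intro h0
      have h1 : (g i).coeff d = 0 := (map_eq_zero _).1 h0
      rw [hi, Polynomial.coeff_natDegree, Polynomial.leadingCoeff_eq_zero] at h1
      rw [h1, Polynomial.natDegree_zero] at hi
      omega
    · by_contra hcon
      push Not at hcon
      have h1 : ∀ i, Polynomial.aeval (s 0 / s 1) (g i) = 0 := by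
        intro i
        have := hcon i
        rw [aeval_homogenize_scale (hdle i) s hs1] at this
        exact (mul_eq_zero.1 this).resolve_left (pow_ne_zero _ hs1)
      have h2 := congrArg (Polynomial.aeval (s 0 / s 1)) hbez
      rw [map_sum, map_one] at h2
      simp only [map_mul, h1, mul_zero, Finset.sum_const_zero] at h2
      exact zero_ne_one h2
  · -- the curve lies on the surface
    have h1 := Polynomial.homogenize_eq_of_isHomogeneous (p := (0 : Polynomial K))
      (hP.aeval (fun i => (g i).homogenize d) fun i => Polynomial.isHomogeneous_homogenize (g i))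
      (by
        have h2 : (aeval (![Polynomial.X, 1] : Fin 2 → Polynomial K)).comp
            (aeval (fun i => (g i).homogenize d) : MvPolynomial (Fin 4) K →ₐ[K] _) =
            aeval g := by
          apply MvPolynomial.algHom_ext
          intro i
          rw [AlgHom.comp_apply, aeval_X, aeval_X, Polynomial.aeval_homogenize_X_one _ (hdle i)]
        exact (DFunLike.congr_fun h2 P).trans hgP)
    rw [← h1, Polynomial.homogenize_zero]
  · intro h0
    exact one_ne_zero (congrFun h0 1)
  · intro i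
    rw [Polynomial.aeval_homogenize_of_eq_one (hdle i) _ rfl]
    show Polynomial.aeval θ (g i) = _
    have h1 := hfθ i
    rw [hg i, map_mul] at h1
    field_simp
    linear_combination h1

end final

end Pool.Agent.Results.MP_4f7796_ag.CurvesThroughPoints
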